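import Pool.Agent.J6H36.RF.Stm

/-!
# Module RF-DOWN (project RF of helper36)
-/

set_option autoImplicit false

universe u

namespace Pool.Agent.J6H26.RF

open Pool.Agent.J6H36.RF

theorem t_DOWN : Pool.Agent.J6H36.RF.S_DOWN.{u} := by
  intro P _ K _ _ d ⟨t, ht, htop⟩
  let F : IntermediateField P K := IntermediateField.adjoin P (Set.range (t ∘ Fin.castSucc))
  have hF : F = IntermediateField.adjoin P (Set.range (t ∘ Fin.castSucc)) := rfl
  refine ⟨F, ⟨fun i => ⟨t i.castSucc, IntermediateField.subset_adjoin P _ ⟨i, rfl⟩⟩, ?_, ?_⟩, ?_⟩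
  · refine AlgebraicIndependent.of_comp F.val ?_
    exact ht.comp _ (Fin.castSucc_injective d)
  · apply IntermediateField.map_injective F.val
    rw [IntermediateField.adjoin_map, ← Set.range_comp]
    have h1 : (⊤ : IntermediateField P F).map F.val = F := by
      rw [← AlgHom.fieldRange_eq_map, IntermediateField.fieldRange_val]
    rw [h1]
    rfl
  · have htr : Transcendental F (t (Fin.last d)) := by
      have h1 := ht.transcendental_adjoin (s := Set.range Fin.castSucc) (i := Fin.last d) (by
        rintro ⟨j, hj⟩
        exact absurd hj (Fin.castSucc_lt_last j).ne)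
      rw [← Set.range_comp] at h1
      exact IntermediateField.transcendental_adjoin_iff.mpr h1
    have h2 : IntermediateField.adjoin F {t (Fin.last d)} = ⊤ := by
      rw [← IntermediateField.restrictScalars_eq_top_iff (K := P)]
      have h3 := IntermediateField.adjoin_adjoin_left P (Set.range (t ∘ Fin.castSucc)) {t (Fin.last d)}
      rw [eq_top_iff, ← htop]
      refine le_trans ?_ h3.ge
      refine IntermediateField.adjoin.mono _ _ _ ?_
      rintro _ ⟨j, rfl⟩
      refine Fin.lastCases ?_ (fun j => ?_) j
      · exact Or.inr rfl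
      · exact Or.inl ⟨j, rfl⟩
    exact ⟨((RatFunc.algEquivOfTranscendental _ htr).trans
      ((IntermediateField.equivOfEq h2).trans IntermediateField.topEquiv)).toRingEquiv⟩

end Pool.Agent.J6H26.RF
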