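import Pool.Agent.J6H50.RF.Stm

/-!
# Module RF-01: truth depends only on the free variables
-/

set_option autoImplicit false

namespace Pool.Agent.J6H26.RF01

open Pool.Agent.J6H50.RF Pool.Agent.NPC

theorem tm_dep {M : Type} (A : Str M) (t : Tm) : ∀ (v w : ℕ → M),
    (∀ i, t.Occ i → v i = w i) → t.val A v = t.val A w := by
  induction t with
  | var j => intro v w h; exact h j rfl
  | zero => intro v w _; rfl
  | suc t ih => intro v w h; exact congrArg A.suc (ih v w h)
  | add s t ih1 ih2 =>
    intro v w h
    exact congrArg₂ A.add (ih1 v w fun i hi => h i (Or.inl hi)) (ih2 v w fun i hi => h i (Or.inr hi))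
  | mul s t ih1 ih2 =>
    intro v w h
    exact congrArg₂ A.mul (ih1 v w fun i hi => h i (Or.inl hi)) (ih2 v w fun i hi => h i (Or.inr hi))
  | smash s t ih1 ih2 =>
    intro v w h
    exact congrArg₂ A.smash (ih1 v w fun i hi => h i (Or.inl hi))
      (ih2 v w fun i hi => h i (Or.inr hi))
  | len t ih => intro v w h; exact congrArg A.len (ih v w h)
  | half t ih => intro v w h; exact congrArg A.half (ih v w h)

theorem m01 : S_dep := by
  intro M A φ
  induction φ with
  | bot => intro v w _; exact Iff.rfl
  | eq s t =>
    intro v w h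
    simp only [Fm.Sat]
    rw [tm_dep A s v w fun i hi => h i (Or.inl hi), tm_dep A t v w fun i hi => h i (Or.inr hi)]
  | le s t =>
    intro v w h
    simp only [Fm.Sat]
    rw [tm_dep A s v w fun i hi => h i (Or.inl hi), tm_dep A t v w fun i hi => h i (Or.inr hi)]
  | imp φ ψ ih1 ih2 =>
    intro v w h
    simp only [Fm.Sat]
    exact imp_congr (ih1 v w fun i hi => h i (Or.inl hi)) (ih2 v w fun i hi => h i (Or.inr hi))
  | all i φ ih =>
    intro v w h
    simp only [Fm.Sat]
    refine forall_congr' fun x => ih _ _ fun j hj => ?_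
    by_cases hji : j = i
    · subst hji
      simp
    · rw [Function.update_of_ne hji, Function.update_of_ne hji]
      exact h j ⟨hji, hj⟩

end Pool.Agent.J6H26.RF01
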